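import Pool.Agent.Helper88.UN.Gap
import Pool.Agent.Helper98.UQ.Fin
import Pool.Agent.Helper86.UQ.St5
import Pool.Agent.Helper10.UQ.M_CNT
import Pool.Agent.Helper11.UQ.M_TRV
import Pool.Agent.Helper15.UQ.M_RKM
import Pool.Agent.Helper22.UQ.M_BDD
import Pool.Agent.Helper22.UQ.M_MIX
import Pool.Agent.Helper29.UQ.M_BOX
import Pool.Agent.Helper33.UQ.M_CVT
import Pool.Agent.Helper34.UQ.M_MDW
import Pool.Agent.Helper37.UQ.M_PMO
import Pool.Agent.Helper38.UQ.M_ISO
import Pool.Agent.Helper42.UQ.M_EPA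
import Pool.Agent.Helper42.UQ.M_PSI
import Pool.Agent.Helper51.UQ.M_CND
import Pool.Agent.Helper58.UQ.M_DEN
import Pool.Agent.Helper61.UQ.M_AMN
import Pool.Agent.Helper61.UQ.M_CLH
import Pool.Agent.Helper61.UQ.M_EPB
import Pool.Agent.Helper61.UQ.M_MTE
import Pool.Agent.Helper61.UQ.M_TRA
import Pool.Agent.Helper62.UQ.M_BND
import Pool.Agent.Helper62.UQ.M_LEA
import Pool.Agent.Helper7.UQ.M_SPE
import Pool.Agent.Helper72.UQ.M_HLB
import Pool.Agent.Helper75.UQ.M_INV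
import Pool.Agent.Helper78.UQ.M_REL
import Pool.Agent.Helper81.UQ.M_CLO
import Pool.Agent.Helper84.UQ.M_COL
import Pool.Agent.Helper87.UQ.M_CTR
import Pool.Agent.Helper89.UQ.M_KAP
import Pool.Agent.Helper99.UQ.M_RKD
import Pool.Agent.Helper63.UQ.M_STP
import Pool.Agent.Helper63.UQ.M_TRG
import Pool.Agent.Helper86.UQ.M_CLG
import Pool.Agent.Helper1.UQ.ZER

/-! # Project UQ (MP_e3e162_pr): the modules put together

Every statement of `Pool/Agent/Helper1/UQ/St1.lean`, `St2.lean` and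
`Pool/Agent/Helper86/UQ/St5.lean` which is used, without hypotheses. -/

set_option autoImplicit false

namespace Pool.Agent.Helper68.UQ

open Pool.Agent.Helper1.UQ Pool.Agent.Helper86.UQ

universe u

/-! ### part 1 -/

theorem aRKM : StRKM.{u} := Helper15.UQ.hRKM
theorem aCTR : StCTR.{u} := Helper87.UQ.hCTR aRKM
theorem aREL : StREL.{u} := Helper78.UQ.hREL
theorem aPSI : StPSI.{u} := Helper42.UQ.hPSI
theorem aKAP : StKAP.{u} := Helper89.UQ.hKAP aPSI
theorem aSTP : StSTP.{u} := Helper63.UQ.hSTP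
theorem aTRA : StTRA.{u} := Helper61.UQ.hTRA aSTP aKAP
theorem aCLO : StCLO.{u} := Helper81.UQ.hCLO
theorem aPMO : StPMO.{u} := Helper37.UQ.hPMO
theorem aLEA : StLEA.{u} := Helper62.UQ.hLEA aPSI aCLO aPMO
theorem aCOL : StCOL.{u} := Helper84.UQ.hCOL aRKM
theorem aCND : StCND.{u} := Helper51.UQ.hCND aRKM
theorem aMIX : StMIX.{u} := Helper22.UQ.hMIX aCND
theorem aHLB : StHLB.{u} := Helper72.UQ.hHLB
theorem aDEN : StDEN.{u} := Helper58.UQ.hDEN aRKM

/-! ### section 5 -/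

theorem aMTE : StMTE.{u} := Helper61.UQ.hMTE
theorem aRKD : StRKD.{u} := Helper99.UQ.hRKD aCOL aMTE
theorem aCNT : StCNT.{u} := Helper10.UQ.hCNT aMTE
theorem aBOX : StBOX.{u} := Helper29.UQ.hBOX aDEN aRKD
theorem aBDD : StBDD.{u} := Helper22.UQ.hBDD
theorem aINV : StINV.{u} := Helper75.UQ.hINV aMTE aREL
theorem aAMN : Helper86.UQ.StAMN.{u} := Helper61.UQ.hAMN aMTE aCNT aBOX aBDD aINV
theorem aSPE : StSPE.{u} := Helper7.UQ.hSPE aAMN

/-! ### part 2 -/

theorem aMDW : StMDW.{u} := Helper34.UQ.hMDW aCTR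
theorem aBND : StBND.{u} := Helper62.UQ.hBND aMDW aCTR aRKM
theorem aISO : StISO.{u} := Helper38.UQ.hISO aREL
theorem aCVT : StCVT.{u} := Helper33.UQ.hCVT aCTR aREL aRKM
theorem aTRV : StTRV.{u} := Helper11.UQ.hTRV
theorem aCLH : StCLH.{u} := Helper61.UQ.hCLH aHLB aMDW
theorem aCLG : StCLG.{u} := Helper86.UQ.hCLG aMIX
theorem aTRG : StTRG.{u} := Helper63.UQ.hTRG aTRA aLEA
theorem aEPA : StEPA := Helper42.UQ.hEPA
theorem aEPB : StEPB := Helper61.UQ.hEPB

/-- If the free and the wired measure differ then the wired measure does not percolate. -/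
theorem aZER : StZER.{u} := Helper1.UQ.hZER aSPE aTRG aCLG aCLH aEPA aEPB aBND aISO

/-- The final statement. -/
theorem fin : Helper98.UQ.StFIN.{u} := Helper88.UN.fin_of_zer aZER aCVT aBND aISO aTRV

end Pool.Agent.Helper68.UQ
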